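import Pool.Agent.TH30.SS.Main

/-!
# Semisimplicity of `ℓ`-adic cohomology over `ℚ` for every `ℓ`, from Frobenius eigenvalues
-/

set_option autoImplicit false

namespace Pool.Agent.Results.MP_8f1292_ag.FrobeniusProducts

open Pool.Agent.W522.C Pool.Agent.TH30.SS

/-- Let `R` be a representation of `G` over a field `K` of characteristic zero, with a
non-degenerate form of multiplier `ε ^ w`, in which the determinant of every stable subspace is an
integral power of `ε` up to roots of unity (example: `G` the Galois group of `ℚ`, `K = ℚ_ℓ`, and
`R = H^w(X)`). Suppose that for every `r ≥ 1` with `2 r ≤ dim V` there is a pure (Frobenius) element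
whose eigenvalues, if `w r` is even, do not contain `r` numbers and their `r` duals (with
multiplicities) such that the product of the `r` numbers is `q ^ (w r / 2)` times a root of unity.
Then `R` is semisimple: the orthogonal complement of a stable subspace is a stable complement. -/
theorem result {K : Type*} [Field K] [CharZero K] {G : Type*} [Group G] (R : PairedRep K G)
    (ε : G →* Kˣ) (w : ℕ) (hmult : ∀ g, R.mult g = (ε g : K) ^ w) (hdet : DetsArePowers R.toRp ε)
    (hfrob : ∀ r, 0 < r → 2 * r ≤ Module.finrank K R.V → ∃ g P q, PureAt R.toRp ε w g P q ∧
      (Even (w * r) → ¬ HasRootOfUnityProduct P q w r)) :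
    R.Semisimple :=
  main R ε w hmult hdet hfrob

end Pool.Agent.Results.MP_8f1292_ag.FrobeniusProducts
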