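import Pool.Agent.TH125.Sem.Main

/-!
# Semisimplicity of representations generated by the monodromy at some places

Let `V` be the `p`-adic realization of a pure motive over a number field, or any representation of a
group `Γ` with a nondegenerate symmetric or alternating form `w` which is multiplied by a character
`χ` (given by a polarization and the cyclotomic character). For some places `v` of bad reduction let
`g_v` be an element of the inertia group, `N_v = (g_v - 1) ^ m` (the exponent may depend on `v`), and
let `D_v` be a subset of the decomposition group, for example a lift of Frobenius. The form `w`
induces a form `b_v (N x, N y) = w (N x, y)` on the image of `N_v`. Suppose that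

* no nonzero subspace of the image of `N_v` which is stable under `D_v` is isotropic for `b_v`
  (this is trivially satisfied if the image is a line: for instance if the reduction has one
  ordinary double point and `m = 1`, or if `V = H^n (X)` for a Calabi-Yau variety `X` of dimension
  `n` with maximally unipotent reduction and `m = n`);
* `V` is generated as a representation of `Γ` by the images of the `N_v`, or at least no nonzero
  subrepresentation of `V` is isotropic and orthogonal to them.

Then `V` is semisimple: every subrepresentation has a complement, its orthogonal. If `V` is
generated by the images of the `N_v` for finitely many places `v`, and `D_v` acts irreducibly on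
the image of `N_v` for all of them, then `V` is the direct sum of at most as many irreducible
subrepresentations as there are places. (For one place: `V` is irreducible.)

No place of good reduction, no Frobenius eigenvalue and no information about endomorphisms or
cycles is used.
-/

namespace Pool.Agent.Results.MP_8f1292_ag.GeneratedByPlaces

open Pool.Agent.TH125.Sem

/-- **Semisimplicity of representations generated by the monodromy at some places.** -/
theorem result {K V Γ : Type} [Field K] [AddCommGroup V] [Module K V] [FiniteDimensional K V]
    [Group Γ] (ρ : Representation K Γ V) (χ : Γ →* Kˣ) (w : LinearMap.BilinForm K V)
    (hw : IsPairing ρ χ w) (P : Set (Place Γ)) (h : GeneratedByPlaces ρ χ w P) :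
    OrthSemisimple ρ w ∧ (P.Finite → localSpan ρ P = ⊤ → (∀ p ∈ P, IrreducibleAt ρ p) →
      AtMostSummands ρ P.ncard) :=
  ⟨semisimple hw h, fun hP htop hirr =>
    summands hP (fun p hp => (h.anisotropic p hp).normalizes) hirr htop⟩

end Pool.Agent.Results.MP_8f1292_ag.GeneratedByPlaces
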