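import Pool.Agent.TH943.TP.Lat

/-!
Semisimplicity of the `p`-adic realizations of the threefolds
`v ^ (p ^ s) = (x_1 - h_1(x_0)) ^ (b_1) (x_2 - h_2(x_1)) ^ (b_2) f(x_2) ^ c` over number fields, and
irreducibility of the representations `H^N_c(U, L_χ)` in all dimensions `N`.
-/

set_option autoImplicit false
set_option maxHeartbeats 1000000

open Polynomial

namespace Pool.Agent.Results.MP_8f1292_ag.ThreefoldLattices

section roots

variable {k : Type} [Field k]

/-- The composition `f(h_n(... h_1(x)))`; here `h_1` is `h 0`. -/
noncomputable def composite : (n : ℕ) → (Fin n → k[X]) → k[X] → k[X]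
  | 0, _, f => f
  | n + 1, h, f => (composite n (fun i => h i.succ) f).comp (h 0)

/-- The data of a covering of dimension `N = n + 2`: polynomials `h_1, ..., h_(n+1)` (`h_1` is `h 0`)
and `f`. -/
structure Datum (k : Type) [Field k] : Type where
  n : ℕ
  h : Fin (n + 1) → k[X]
  f : k[X]

/-- The composition `f(h_(n+1)(... h_2(x)))` without `h_1`. -/
noncomputable def Datum.outer (D : Datum k) : k[X] := composite D.n (fun i => D.h i.succ) D.f

/-- The polynomial `h_1`. -/
noncomputable def Datum.inner (D : Datum k) : k[X] := D.h 0

/-- The set `R` of the roots of the whole composition in the algebraic closure of `k`. -/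
abbrev Roots (D : Datum k) : Type :=
  (D.outer.comp D.inner).rootSet (AlgebraicClosure k)

/-- The image of a root under an element of the Galois group. -/
noncomputable def move (D : Datum k) (σ : Gal(AlgebraicClosure k/k)) (r : Roots D) : Roots D :=
  ⟨σ r.1, by
    have h1 := r.2
    rw [mem_rootSet'] at h1 ⊢
    refine ⟨h1.1, ?_⟩
    have h2 : aeval (σ r.1) (D.outer.comp D.inner) = σ (aeval r.1 (D.outer.comp D.inner)) :=
      aeval_algHom_apply (σ : AlgebraicClosure k →ₐ[k] AlgebraicClosure k) r.1 _
    rw [h2, h1.2, map_zero]⟩

/-- The image `h_1(r)` of the root `r`. -/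
noncomputable def below (D : Datum k) (r : Roots D) : AlgebraicClosure k := aeval r.1 D.inner

open Classical in
/-- The roots with the same image under `h_1` as `r`. -/
noncomputable def fibre (D : Datum k) (r : Roots D) : Finset (Roots D) :=
  Finset.univ.filter fun r' => below D r' = below D r

/-- The composition has no multiple roots, the degree of `h_1` is not divisible by `p`, the Galois
group is transitive on the ordered pairs of different roots with the same image under `h_1`, and it
contains an element which exchanges two such roots and fixes all other roots. -/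
structure IsLarge (p : ℕ) (D : Datum k) : Prop where
  separable : (D.outer.comp D.inner).Separable
  degree : ¬ p ∣ D.inner.natDegree
  pairs : ∀ r r' s s' : Roots D, r ≠ r' → s ≠ s' → below D r = below D r' →
    below D s = below D s' → ∃ σ, move D σ r = s ∧ move D σ r' = s'
  transposition : ∃ (τ : Gal(AlgebraicClosure k/k)) (r r' : Roots D), r ≠ r' ∧
    below D r = below D r' ∧ move D τ r = r' ∧ move D τ r' = r ∧
      ∀ s, s ≠ r → s ≠ r' → move D τ s = s

end roots

section cohomology

variable {k : Type} [Field k]

/-- `V` is `H^N_c(U, L_χ)` over the algebraic closure of `k`, with the action `ρ` of the Galois group,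
`Λ` the lattice given by the sheaf of `O`-modules, and `red` the reduction modulo the maximal ideal:
`Λ` modulo the maximal ideal is the space of functions on the set of the roots of the composition
with values in the residue field `F` and with sum zero on all fibres of `h_1`, with the permutation
action. -/
structure IsLattice (D : Datum k) {O L F V : Type} [CommRing O] [IsLocalRing O] [Field L]
    [Algebra O L] [Field F] [Algebra O F] [AddCommGroup V] [Module L V] [Module O V]
    (ρ : Representation L Gal(AlgebraicClosure k/k) V) (Λ : Submodule O V)
    (red : Λ →ₗ[O] (Roots D → F)) : Prop where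
  fg : Λ.FG
  span : ∀ v : V, ∃ a : O, a ≠ 0 ∧ a • v ∈ Λ
  stable : ∀ σ, ∀ v ∈ Λ, ρ σ v ∈ Λ
  equivariant : ∀ (σ : Gal(AlgebraicClosure k/k)) (v v' : Λ), (v' : V) = ρ σ v →
    ∀ r, red v' (move D σ r) = red v r
  range : ∀ w : Roots D → F, w ∈ LinearMap.range red ↔ ∀ r, ∑ r' ∈ fibre D r, w r' = 0
  kernel : ∀ v : Λ, red v = 0 → ∃ a ∈ IsLocalRing.maximalIdeal O, ∃ v' : Λ, v = a • v'

/-- A subspace of a representation which is stable. -/
def IsStable {L H : Type} [Field L] [AddCommGroup H] [Module L H]
    (ρ : Representation L Gal(AlgebraicClosure k/k) H) (W : Submodule L H) : Prop :=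
  ∀ σ, ∀ w ∈ W, ρ σ w ∈ W

/-- `H` is the middle cohomology of a smooth projective variety with an action of the group of the
covering in which the covering `U'` of `U` is open, with the action `ρ` of the Galois group: the sum of
the images of the `V χ = H^N_c(U, L_χ)`, `χ` the nontrivial characters, and of a space `N` on which the
action is semisimple (all stable subspaces have stable complements), coming from the boundary and from
the trivial character. -/
structure IsMiddleCohomology {L X H : Type} [Field L] {V : X → Type}
    [∀ χ, AddCommGroup (V χ)] [∀ χ, Module L (V χ)] [AddCommGroup H] [Module L H]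
    (ρV : ∀ χ, Representation L Gal(AlgebraicClosure k/k) (V χ))
    (ρ : Representation L Gal(AlgebraicClosure k/k) H) (π : ∀ χ, V χ →ₗ[L] H)
    (N : Submodule L H) : Prop where
  equivariant : ∀ χ σ v, π χ (ρV χ σ v) = ρ σ (π χ v)
  stable : IsStable ρ N
  semisimple : ∀ W ≤ N, IsStable ρ W → ∃ W' ≤ N, IsStable ρ W' ∧ W ⊔ W' = N ∧ W ⊓ W' = ⊥
  sum : (⨆ χ, LinearMap.range (π χ)) ⊔ N = ⊤

/-- A representation without stable subspaces except zero and the whole space. -/
def IsIrreducible {L V : Type} [Field L] [AddCommGroup V] [Module L V]
    (ρ : Representation L Gal(AlgebraicClosure k/k) V) : Prop :=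
  ∀ W : Submodule L V, IsStable ρ W → W = ⊥ ∨ W = ⊤

/-- A representation all of whose stable subspaces have stable complements. -/
def IsSemisimple {L V : Type} [Field L] [AddCommGroup V] [Module L V]
    (ρ : Representation L Gal(AlgebraicClosure k/k) V) : Prop :=
  ∀ W : Submodule L V, IsStable ρ W → ∃ W', IsStable ρ W' ∧ IsCompl W W'

end cohomology

section proof

variable {k : Type} [Field k]

theorem move_mul (D : Datum k) (σ τ : Gal(AlgebraicClosure k/k)) (r : Roots D) :
    move D (σ * τ) r = move D σ (move D τ r) := rfl

theorem move_one (D : Datum k) (r : Roots D) : move D 1 r = r := rfl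

theorem fibre_card (D : Datum k) (hsep : (D.outer.comp D.inner).Separable) (r : Roots D) :
    (fibre D r).card = D.inner.natDegree := by
  classical
  set i := algebraMap k (AlgebraicClosure k) with hi
  set a := below D r with ha
  set g : (AlgebraicClosure k)[X] := D.inner.map i - C a with hg
  have hr := r.2
  rw [mem_rootSet'] at hr
  have hfa : (D.outer.map i).eval a = 0 := by
    rw [eval_map_algebraMap]
    have h1 : aeval r.1 (D.outer.comp D.inner) = aeval (aeval r.1 D.inner) D.outer :=
      aeval_comp r.1
    rw [← hr.2, h1]
    rfl
  have hdvd : g ∣ (D.outer.comp D.inner).map i := by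
    obtain ⟨u, hu⟩ := dvd_iff_isRoot.2 hfa
    refine ⟨u.comp (D.inner.map i), ?_⟩
    rw [map_comp, hu, mul_comp, sub_comp, X_comp, C_comp]
  have hgs : g.Separable := (hsep.map (f := i)).of_dvd hdvd
  have hcard := card_rootSet_eq_natDegree (K := AlgebraicClosure k) hgs
    (IsAlgClosed.splits _)
  have hdeg : g.natDegree = D.inner.natDegree := by
    rw [hg, natDegree_sub_C, natDegree_map]
  have hg0 : g ≠ 0 := hgs.ne_zero
  have hev : ∀ y : AlgebraicClosure k, aeval y g = aeval y D.inner - a := by
    intro y
    rw [hg, map_sub, aeval_C, aeval_map_algebraMap]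
    rfl
  rw [← hdeg, ← hcard, ← Finset.card_univ]
  refine Finset.card_bij (fun r' hr' => (⟨r'.1, mem_rootSet.2 ⟨hg0, ?_⟩⟩ :
    g.rootSet (AlgebraicClosure k))) (fun _ _ => Finset.mem_univ _) ?_ ?_
  · rw [hev, sub_eq_zero]
    exact (Finset.mem_filter.1 hr').2
  · intro a₁ _ a₂ _ h12
    exact Subtype.ext (congrArg (fun x : g.rootSet (AlgebraicClosure k) => x.1) h12)
  · intro y _
    have hy := (mem_rootSet.1 y.2).2
    rw [hev, sub_eq_zero] at hy
    have hyR : y.1 ∈ (D.outer.comp D.inner).rootSet (AlgebraicClosure k) := by
      rw [mem_rootSet']
      refine ⟨hr.1, ?_⟩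
      have h1 : aeval y.1 (D.outer.comp D.inner) = aeval (aeval y.1 D.inner) D.outer :=
        aeval_comp y.1
      have h2 : aeval r.1 (D.outer.comp D.inner) = aeval (aeval r.1 D.inner) D.outer :=
        aeval_comp r.1
      rw [h1, hy, ← hr.2, h2]
      rfl
    refine ⟨⟨y.1, hyR⟩, ?_, rfl⟩
    exact Finset.mem_filter.2 ⟨Finset.mem_univ _, hy⟩

theorem irreducible {p : ℕ} {D : Datum k} (hfh : IsLarge p D)
    {O L F V : Type} [CommRing O] [IsDomain O] [IsDiscreteValuationRing O] [Field L]
    [Algebra O L] [IsFractionRing O L] [Field F] [CharP F p] [Algebra O F]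
    (hOF : Function.Surjective (algebraMap O F)) [AddCommGroup V] [Module L V] [Module O V]
    [IsScalarTower O L V] {ρ : Representation L Gal(AlgebraicClosure k/k) V}
    {Λ : Submodule O V} {red : Λ →ₗ[O] (Roots D → F)} (hΛ : IsLattice D ρ Λ red) :
    IsIrreducible ρ := by
  classical
  have hm : ((D.inner.natDegree : ℕ) : F) ≠ 0 := by
    rw [Ne, CharP.cast_eq_zero_iff F p]
    exact hfh.degree
  obtain ⟨τ, r0, r0', h0, hc0, h1, h2, h3⟩ := hfh.transposition
  set K : Submodule F (Roots D → F) :=
    { carrier := {w | ∀ r, ∑ r' ∈ fibre D r, w r' = 0}
      add_mem' := by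
        intro a b ha hb r
        have : ∀ r', (a + b) r' = a r' + b r' := fun _ => rfl
        simp only [this, Finset.sum_add_distrib, ha r, hb r, add_zero]
      zero_mem' := fun r => Finset.sum_eq_zero fun _ _ => rfl
      smul_mem' := by
        intro c a ha r
        have : ∀ r', (c • a) r' = c * a r' := fun _ => rfl
        simp only [this, ← Finset.mul_sum, ha r, mul_zero] } with hK
  have hinv : ∀ (σ : Gal(AlgebraicClosure k/k)) (r : Roots D),
      move D σ (move D σ⁻¹ r) = r := by
    intro σ r
    rw [← move_mul, mul_inv_cancel, move_one]
  intro W hW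
  refine TH943.TP.Lat.irreducible_of_lattice hOF ρ Λ hΛ.fg hΛ.span hΛ.stable (move D) hinv red
    (fun σ v r => hΛ.equivariant σ v _ rfl r) K (fun w => hΛ.range w) ?_ hΛ.kernel W hW
  intro W' hW' hW'K hne w hw
  exact TH943.TP.Lat.residual (move D) (move_mul D) (move_one D) (below D) hm
    (fun r => fibre_card D hfh.separable r) hfh.pairs h0 hc0 h1 h2 h3 W' hW'
    (fun w' hw' r => hW'K hw' r) hne w (fun r => hw r)

end proof

/-- **Semisimplicity of the `p`-adic realizations of threefolds from permutation lattices.**

Let `p` be a prime, `k` a number field which contains a primitive root of unity of order `p ^ s`,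
`s ≥ 1`, and `h_1, ..., h_(n+1)`, `n ≥ 0`, and `f` polynomials over `k`. Let `N = n + 2`, and let `U` be the
open set, over the algebraic closure of `k`, of the affine space with the coordinates
`x_0, ..., x_(n+1)` where `G = f(x_(n+1)) ^ c ∏ (x_i - h_i(x_(i-1))) ^ (b_i)` is not zero, `c`, `b_i` positive
integers, `b_1` prime to `p`, and `U'` its covering `v ^ (p ^ s) = G`. Assume `IsLarge` for the
composition `f(h_(n+1)(... h_1(x)))`. This is so if its Galois group is the iterated wreath product of
symmetric groups, so for almost all polynomials of given degrees with `p` prime to `deg h_1`.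

Facts. Let `R` be the set of roots of the composition, `Q` that of `f`, `χ` a nontrivial character of
order dividing `p ^ s` with values in `O`, the ring of integers of a finite extension `L` of the field
of `p`-adic numbers, `F` the residue field, `ℱ` the corresponding locally constant sheaf of
`O`-modules of rank one on `U`; modulo the maximal ideal it is the constant sheaf `F`. One
integrates over `x_0`, then over `x_1`, and so on. On the fibres `h_1(x_0) ≠ x_1` of the first projection
one has `R¹ F = h_(1)_* F`, as a line has only cohomology with compact supports in degree two.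
Modulo the maximal ideal `R¹` of the sheaf `K` of `(x_1 - h_1(x_0)) ^ (b_1)` is the kernel of a map from
`h_(1)_* F` to the part of `R² K` killed by a uniformizer; as `p` does not divide `b_1 deg h_1`, every
fibre has a point with local monodromy of the full order, so that `R² K` is the constant sheaf
`O / (1 - ζ')`, `ζ'` a generator of the image of `χ`; the map is a multiple of the trace, as the monodromy
group of `h_1` is transitive. So `R¹ K` modulo the maximal ideal is the kernel `𝒦_1` of the trace, a
direct summand of `h_(1)_* F`, and the cohomology with compact supports of the line with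
coefficients in `𝒦_1` is zero in all degrees. So on the fibres `h_2(x_1) ≠ x_2` of the next projection `R²`
is zero and `R¹` modulo the maximal ideal is `𝒦_2 = h_(2)_* 𝒦_1`, whose cohomology with compact supports
on the line is zero again, and so on. At the end `Λ = H^N_c(U, ℱ)` modulo the maximal ideal is
`H¹_c(A¹ - Q, 𝒦_(n+1))`, the sum of the stalks of `𝒦_(n+1)` at the elements of `Q`, so it is the space of
the functions on `R` with sum zero on the fibres of `h_1`; `Λ` is torsion free, as `U` is affine and
smooth, and the other `H^j_c(U, ℱ)` are torsion groups. So `IsLattice` holds for `V_χ = H^N_c(U, L_χ)`.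

Let `N = 3` and let `Y` be a smooth projective threefold with an action of the group of the covering, in
which `U'` is open with complement a divisor `D` with normal crossings, `D'` its normalization, `H`
the group `H³(Y)` with coefficients in `L`. As `H^j_c(U, L_χ) = 0` for `j ≠ 3`, and as the quotient of `Y` is
rational, `H¹(Y) = 0`, and `H²(Y)` and `H⁴(Y)` are spanned by classes of divisors and their duals. The
image of `H³_c(U')` in `H³(Y)` is the orthogonal complement of the image `B` of `H¹(D')` under the Gysin
map; as `H¹(Y) = 0`, all of `H³(Y)` is primitive, so that `B` and its orthogonal complement span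
`H³(Y)` (Hodge-Riemann relations). The action on `B` is semisimple by Faltings, and so is that on the part
of trivial character, which is a part of the third cohomology of blowings up of projective space in
curves and points. So `IsMiddleCohomology` holds with the sum `N` of these two parts.

Theorem. For all `N` the representations `V_χ` of the Galois group of `k` are irreducible (for all `L`, so
absolutely irreducible), and a representation `H` as in `IsMiddleCohomology` is semisimple.

Consequence. For EVERY smooth projective threefold `X` over a number field birational, over an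
extension, to `v ^ (p ^ s) = (x_1 - h_1(x_0)) ^ (b_1) (x_2 - h_2(x_1)) ^ (b_2) f(x_2) ^ c` as above, all `H^i(X)` with
`p`-adic coefficients are semisimple, as they are contained in the cohomology of a variety obtained
from some `Y` as above by blowing up curves and points (Faltings; and semisimplicity for a subgroup
of finite index implies semisimplicity). So Q1 holds, for this
prime `p`, for all motives over number fields in the tensor category generated by such threefolds,
abelian varieties and curves. The Hodge numbers `h^(3,0)` are not bounded. -/
theorem result (p : ℕ) (k : Type) [Field k] (D : Datum k) (hD : IsLarge p D)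
    (O L F : Type) [CommRing O] [IsDomain O] [IsDiscreteValuationRing O] [Field L] [CharZero L]
    [Algebra O L] [IsFractionRing O L] [Field F] [CharP F p] [Algebra O F]
    (hOF : Function.Surjective (algebraMap O F))
    (X : Type) (V : X → Type) [∀ χ, AddCommGroup (V χ)] [∀ χ, Module L (V χ)]
    [∀ χ, Module O (V χ)] [∀ χ, IsScalarTower O L (V χ)]
    (ρV : ∀ χ, Representation L Gal(AlgebraicClosure k/k) (V χ)) (Λ : ∀ χ, Submodule O (V χ))
    (red : ∀ χ, Λ χ →ₗ[O] (Roots D → F)) (hΛ : ∀ χ, IsLattice D (ρV χ) (Λ χ) (red χ))
    (H : Type) [AddCommGroup H] [Module L H] [FiniteDimensional L H]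
    (ρ : Representation L Gal(AlgebraicClosure k/k) H) (π : ∀ χ, V χ →ₗ[L] H)
    (N : Submodule L H) (hH : IsMiddleCohomology ρV ρ π N) :
    (∀ χ, IsIrreducible (ρV χ)) ∧ IsSemisimple ρ := by
  have hirr : ∀ χ, IsIrreducible (ρV χ) := fun χ => irreducible hD hOF (hΛ χ)
  refine ⟨hirr, fun W hW => ?_⟩
  refine TH943.TP.Lat.semi_of_sum ρ (fun o : Option X => o.elim N fun χ => LinearMap.range (π χ))
    ?_ ?_ W hW
  · rintro (_ | χ)
    · exact ⟨hH.stable, hH.semisimple⟩
    · exact TH943.TP.Lat.semi_range (ρV χ) ρ (hirr χ) (π χ) (hH.equivariant χ)
  · rw [iSup_option, sup_comm]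
    exact hH.sum

end Pool.Agent.Results.MP_8f1292_ag.ThreefoldLattices
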